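import Mathlib
import Pool.Agent.H61.NotGulko
import Pool.Agent.H61.SmallClosures3

/-!
# Lindelöf Sigma closures of small sets in `C_p(X)` do not imply Gul'ko compactness

Negative answer, with a zero-dimensional Corson compact space `X`.
-/

set_option autoImplicit false

namespace Pool.Agent.Results.MP_32433e_gt.CorsonExample

open Set Topology
open scoped Cardinal

/-- `Y` is a Lindelöf Sigma space: there are a cover `𝒞` of `Y` by compact sets and a countable family
`𝒩` of subsets such that for all `C` in `𝒞` and all open `U` containing `C` some `N` in `𝒩` satisfies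
`C ⊆ N ⊆ U`. -/
def IsLindelofSigma (Y : Type*) [TopologicalSpace Y] : Prop :=
  ∃ 𝒞 𝒩 : Set (Set Y), (∀ C ∈ 𝒞, IsCompact C) ∧ (∀ y, ∃ C ∈ 𝒞, y ∈ C) ∧ 𝒩.Countable ∧
    ∀ C ∈ 𝒞, ∀ U : Set Y, IsOpen U → C ⊆ U → ∃ N ∈ 𝒩, C ⊆ N ∧ N ⊆ U

/-- `C_p(X)`: the continuous functions `X → ℝ` with the topology of pointwise convergence. -/
abbrev Cp (X : Type*) [TopologicalSpace X] : Type _ := {f : X → ℝ // Continuous f}

theorem of_isLS {Y : Type} [TopologicalSpace Y] {S : Set Y} (hS : Pool.Agent.H61.IsLS S) :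
    IsLindelofSigma S := by
  obtain ⟨C, M, tC, cC, t2C, tM, scM, t3M, F, g, hF, hg, hgS⟩ := hS
  obtain ⟨b, hbc, -, hb⟩ := TopologicalSpace.exists_countable_basis M
  let T : Set M → Set S := fun V => {s | ∃ c m, m ∈ V ∧ (c, m) ∈ F ∧ g (c, m) = s}
  have hT : ∀ V : Set M, Subtype.val '' T V = g '' (F ∩ (univ ×ˢ V)) := by
    intro V
    ext y
    constructor
    · rintro ⟨s, ⟨c, m, h1, h2, h3⟩, rfl⟩
      exact ⟨(c, m), ⟨h2, mem_univ _, h1⟩, h3⟩
    · rintro ⟨⟨c, m⟩, ⟨h1, -, h2⟩, rfl⟩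
      have h3 : g (c, m) ∈ S := by
        rw [← hgS]
        exact ⟨_, h1, rfl⟩
      exact ⟨⟨g (c, m), h3⟩, ⟨c, m, h2, h1, rfl⟩, rfl⟩
  refine ⟨{K | ∃ m : M, K = T {m}}, T '' b, ?_, ?_, hbc.image T, ?_⟩
  · rintro K ⟨m, rfl⟩
    rw [Subtype.isCompact_iff, hT]
    apply IsCompact.image_of_continuousOn _ (hg.mono inter_subset_left)
    exact (isCompact_univ.prod isCompact_singleton).inter_left hF
  · rintro ⟨y, hy⟩
    have hy' := hy
    rw [← hgS] at hy'
    obtain ⟨⟨c, m⟩, h1, h2⟩ := hy'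
    exact ⟨_, ⟨m, rfl⟩, c, m, rfl, h1, h2⟩
  · rintro K ⟨m, rfl⟩ U hU hKU
    obtain ⟨U', hU', rfl⟩ := isOpen_induced_iff.1 hU
    obtain ⟨O, hO, hOF⟩ := continuousOn_iff'.1 hg U' hU'
    have hopen : IsOpen (Fᶜ ∪ O) := hF.isOpen_compl.union hO
    have hsub : (univ : Set C) ×ˢ ({m} : Set M) ⊆ Fᶜ ∪ O := by
      rintro ⟨c, m'⟩ ⟨-, hm'⟩
      rw [mem_singleton_iff] at hm'
      subst hm'
      by_cases hc : (c, m') ∈ F
      · right
        have h3 : g (c, m') ∈ S := by
          rw [← hgS]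
          exact ⟨_, hc, rfl⟩
        have h4 : (⟨g (c, m'), h3⟩ : S) ∈ T {m'} := ⟨c, m', rfl, hc, rfl⟩
        have h5 : (c, m') ∈ g ⁻¹' U' ∩ F := ⟨hKU h4, hc⟩
        rw [hOF] at h5
        exact h5.1
      · left
        exact hc
    obtain ⟨u, v, -, hv, huu, hmv, huv⟩ :=
      generalized_tube_lemma isCompact_univ isCompact_singleton hopen hsub
    obtain ⟨V, hVb, hmV, hVv⟩ := hb.exists_subset_of_mem_open (hmv rfl) hv
    refine ⟨T V, ⟨V, hVb, rfl⟩, ?_, ?_⟩
    · rintro s ⟨c, m', h1, h2, h3⟩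
      rw [mem_singleton_iff] at h1
      subst h1
      exact ⟨c, m', hmV, h2, h3⟩
    · rintro s ⟨c, m', h1, h2, h3⟩
      have h4 : (c, m') ∈ Fᶜ ∪ O := huv ⟨huu (mem_univ c), hVv h1⟩
      have h5 : (c, m') ∈ O ∩ F := ⟨h4.resolve_left (fun h => h h2), h2⟩
      rw [← hOF] at h5
      change (s : Y) ∈ U'
      rw [← h3]
      exact h5.1

theorem IsLindelofSigma.of_surjective {Y Z : Type*} [TopologicalSpace Y] [TopologicalSpace Z]
    (h : IsLindelofSigma Y) (f : Y → Z) (hf : Continuous f) (hs : Function.Surjective f) :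
    IsLindelofSigma Z := by
  obtain ⟨𝒞, 𝒩, hC, hcov, hN, hnet⟩ := h
  refine ⟨(fun C => f '' C) '' 𝒞, (fun N => f '' N) '' 𝒩, ?_, ?_, hN.image _, ?_⟩
  · rintro _ ⟨C, hC', rfl⟩
    exact (hC C hC').image hf
  · intro z
    obtain ⟨y, rfl⟩ := hs z
    obtain ⟨C, hC', hy⟩ := hcov y
    exact ⟨_, ⟨C, hC', rfl⟩, y, hy, rfl⟩
  · rintro _ ⟨C, hC', rfl⟩ U hU hCU
    obtain ⟨N, hN', h1, h2⟩ := hnet C hC' (f ⁻¹' U) (hU.preimage hf) (image_subset_iff.1 hCU)
    exact ⟨_, ⟨N, hN', rfl⟩, image_mono h1, image_subset_iff.2 h2⟩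

theorem cube_of {Y ι : Type} [TopologicalSpace Y] [Nonempty Y] (E : Y → (ι → unitInterval))
    (hE : IsEmbedding E) (h : IsLindelofSigma Y) :
    ∃ (F : Set ((ι → unitInterval) × (ℕ → unitInterval)))
      (g : (ι → unitInterval) × (ℕ → unitInterval) → Y),
      F = closure F ∩ (univ ×ˢ (Prod.snd '' F)) ∧ ContinuousOn g F ∧ g '' F = univ := by
  classical
  obtain ⟨𝒞, 𝒩, hC, hcov, hN, hnet⟩ := h
  obtain ⟨y₀⟩ := ‹Nonempty Y›
  obtain ⟨C₀, hC₀, -⟩ := hcov y₀
  obtain ⟨N₀, hN₀, -⟩ := hnet C₀ hC₀ univ isOpen_univ (subset_univ _)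
  obtain ⟨N, hNr⟩ := hN.exists_eq_range ⟨N₀, hN₀⟩
  let s : Set Y → (ℕ → unitInterval) := fun C n => if C ⊆ N n then 1 else 0
  let F : Set ((ι → unitInterval) × (ℕ → unitInterval)) :=
    {q | ∃ C ∈ 𝒞, q.2 = s C ∧ ∀ n, C ⊆ N n → q.1 ∈ closure (E '' N n)}
  let G : Set ((ι → unitInterval) × (ℕ → unitInterval)) :=
    {q | ∀ n, q.2 n = 0 ∨ q.1 ∈ closure (E '' N n)}
  have hG : IsClosed G := by
    have h1 : G = ⋂ n, ({q | q.2 n = 0} ∪ {q | q.1 ∈ closure (E '' N n)}) := by
      ext q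
      simp only [G, mem_ofPred_eq, mem_iInter, mem_union]
    rw [h1]
    refine isClosed_iInter fun n => IsClosed.union ?_ ?_
    · exact isClosed_eq (by fun_prop) continuous_const
    · exact isClosed_closure.preimage continuous_fst
  have hFG : F ⊆ G := by
    rintro q ⟨C, hCm, h1, h2⟩ n
    by_cases hn : C ⊆ N n
    · exact Or.inr (h2 n hn)
    · left
      rw [h1]
      simp only [s, if_neg hn]
  have hkey : ∀ q : (ι → unitInterval) × (ℕ → unitInterval), ∀ C ∈ 𝒞,
      (∀ n, C ⊆ N n → q.1 ∈ closure (E '' N n)) → ∃ y ∈ C, E y = q.1 := by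
    intro q C hCm h2
    by_contra hcon
    have h3 : q.1 ∉ E '' C := by
      rintro ⟨y, hy, hy'⟩
      exact hcon ⟨y, hy, hy'⟩
    have h4 : IsCompact (E '' C) := (hC C hCm).image hE.continuous
    obtain ⟨U, V, hU, hV, hCU, hqV, hUV⟩ := SeparatedNhds.of_isCompact_isCompact h4
      (isCompact_singleton (x := q.1)) (by
        rw [disjoint_singleton_right]
        exact h3)
    obtain ⟨N', hN', h5, h6⟩ := hnet C hCm (E ⁻¹' U) (hU.preimage hE.continuous)
      (fun y hy => hCU ⟨y, hy, rfl⟩)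
    rw [hNr] at hN'
    obtain ⟨n, rfl⟩ := hN'
    have h7 := h2 n h5
    rw [mem_closure_iff] at h7
    obtain ⟨x, hxV, y, hy, rfl⟩ := h7 V hV (hqV rfl)
    exact disjoint_left.1 hUV (h6 hy) hxV
  let g : (ι → unitInterval) × (ℕ → unitInterval) → Y :=
    fun q => if h : ∃ y, E y = q.1 then h.choose else y₀
  have hg : ∀ q ∈ F, E (g q) = q.1 := by
    rintro q ⟨C, hCm, h1, h2⟩
    obtain ⟨y, -, hy⟩ := hkey q C hCm h2
    have h3 : ∃ y, E y = q.1 := ⟨y, hy⟩
    simp only [g, dif_pos h3]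
    exact h3.choose_spec
  refine ⟨F, g, ?_, ?_, ?_⟩
  · apply Subset.antisymm
    · intro q hq
      exact ⟨subset_closure hq, mem_univ _, q, hq, rfl⟩
    · rintro ⟨x, t⟩ ⟨h1, -, ⟨q, hq, h2⟩⟩
      have h3 : (x, t) ∈ G := closure_minimal hFG hG h1
      obtain ⟨C, hCm, h4, -⟩ := hq
      change q.2 = t at h2
      refine ⟨C, hCm, ?_, ?_⟩
      · change t = s C
        rw [← h2, h4]
      · intro n hn
        refine (h3 n).resolve_left ?_
        change t n ≠ 0
        rw [← h2, h4]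
        simp only [s, if_pos hn]
        exact one_ne_zero
  · rw [hE.isInducing.continuousOn_iff]
    exact continuous_fst.continuousOn.congr hg
  · rw [eq_univ_iff_forall]
    intro y
    obtain ⟨C, hCm, hy⟩ := hcov y
    have hq : (E y, s C) ∈ F :=
      ⟨C, hCm, rfl, fun n hn => subset_closure ⟨y, hn hy, rfl⟩⟩
    exact ⟨_, hq, hE.injective (hg _ hq)⟩

theorem exists_embedding (X : Type) [TopologicalSpace X] :
    ∃ E : Cp X → (X × ℕ → unitInterval), IsEmbedding E := by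
  obtain ⟨e, he⟩ := Metric.PiNatEmbed.exists_embedding_to_hilbert_cube (X := ℝ)
  exact ⟨_, ((Homeomorph.piCurry (X := X) (Y := ℕ) (Z := unitInterval)).symm.isEmbedding.comp
    (IsEmbedding.piMap fun _ : X => he)).comp IsEmbedding.subtypeVal⟩

/-- There is a compact space `X`, homeomorphic to a subspace of the set of all points of a product
`{0, 1} ^ Γ` with countable support (so `X` is a zero-dimensional Corson compact space), such that the
closure in `C_p(X)` of every set of at most continuum many continuous functions is a Lindelöf Sigma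
space, but `C_p(X)` is not a Lindelöf Sigma space, that is, `X` is not Gul'ko compact. -/
theorem result :
    ∃ (X : Type) (_ : TopologicalSpace X), CompactSpace X ∧ T2Space X ∧
      (∃ (Γ : Type) (e : X → (Γ → Bool)), IsEmbedding e ∧ ∀ x, {γ | e x γ = true}.Countable) ∧
      (∀ A : Set (Cp X), Cardinal.mk A ≤ 𝔠 → IsLindelofSigma (closure A)) ∧
      ¬ IsLindelofSigma (Cp X) := by
  classical
  let W : Type := (Order.succ Cardinal.continuum.{0}).ord.ToType
  have hW : Cardinal.continuum < Cardinal.mk W := by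
    rw [Cardinal.mk_ord_toType]
    exact Order.lt_succ _
  refine ⟨Pool.Agent.H61.XX W, inferInstance, inferInstance, inferInstance,
    ⟨Pool.Agent.H61.Pt W, fun K => K.1, IsEmbedding.subtypeVal, ?_⟩, ?_, ?_⟩
  · rintro ⟨K, hK1, y, hy⟩
    by_cases h : ∃ k, K k = true
    · let φ : {γ | K γ = true} → ℕ := fun k => PiNat.firstDiff k.1.z y
      have hφ : Function.Injective φ := by
        intro k k' hkk
        by_contra hne
        exact (hy k.1 k'.1 k.2 k'.2 (fun h => hne (Subtype.ext h))).2.2.1 hkk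
      exact hφ.countable
    · have : {γ | K γ = true} = ∅ := by
        ext k
        simp only [mem_ofPred_eq, mem_empty_iff_false, iff_false]
        exact fun hk => h ⟨k, hk⟩
      change {γ | K γ = true}.Countable
      rw [this]
      exact countable_empty
  · intro A hA
    have h1 := Pool.Agent.H61.small_closure (W := W) (Subtype.val '' A)
      (by
        rintro _ ⟨f, -, rfl⟩
        exact f.2)
      (Cardinal.mk_image_le.trans hA)
    have h3 : ∀ f : Cp (Pool.Agent.H61.XX W), f ∈ closure A ↔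
        f.1 ∈ closure (Subtype.val '' A) := by
      intro f
      rw [IsInducing.subtypeVal.closure_eq_preimage_closure_image]
      rfl
    refine (of_isLS h1).of_surjective
      (fun s => (⟨⟨s.1, s.2.2⟩, (h3 _).2 s.2.1⟩ : closure A)) ?_ ?_
    · exact (continuous_subtype_val.subtype_mk _).subtype_mk _
    · rintro ⟨f, hf⟩
      exact ⟨⟨f.1, (h3 f).1 hf, f.2⟩, rfl⟩
  · intro h
    obtain ⟨E, hE⟩ := exists_embedding (Pool.Agent.H61.XX W)
    have hne : Nonempty (Cp (Pool.Agent.H61.XX W)) := ⟨⟨fun _ => 0, continuous_const⟩⟩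
    obtain ⟨F, g, h1, h2, h3⟩ := cube_of E hE h
    apply Pool.Agent.H61.not_gulko (W := W) hW
    refine ⟨_, F, fun q => (g q).1, h1, continuous_subtype_val.comp_continuousOn h2, ?_⟩
    ext f
    constructor
    · rintro ⟨q, -, rfl⟩
      exact (g q).2
    · intro hf
      have h4 : (⟨f, hf⟩ : Cp (Pool.Agent.H61.XX W)) ∈ g '' F := by
        rw [h3]
        exact mem_univ _
      obtain ⟨q, hq, hq'⟩ := h4
      exact ⟨q, hq, congrArg Subtype.val hq'⟩

end Pool.Agent.Results.MP_32433e_gt.CorsonExample
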